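import Mathlib

set_option autoImplicit false

open MeasureTheory

universe u

namespace Pool.Agent.Work.MP_97bde0_lc_helper49

/-- `E` is a countable Borel equivalence relation. -/
structure IsCBER {X : Type u} [MeasurableSpace X] (E : X → X → Prop) : Prop where
  equivalence : Equivalence E
  borel : MeasurableSet {p : X × X | E p.1 p.2}
  countable : ∀ x : X, {y : X | E x y}.Countable

/-- Every class of `E` is infinite. -/
def IsAperiodic {X : Type u} (E : X → X → Prop) : Prop := ∀ x : X, {y : X | E x y}.Infinite

/-- `Y` is a union of `E`-classes. -/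
def IsInvariant {X : Type u} (E : X → X → Prop) (Y : Set X) : Prop :=
  ∀ x y : X, E x y → x ∈ Y → y ∈ Y

/-- The restriction `E|Y`, a relation on the subspace `Y`. -/
def Restrict {X : Type u} (E : X → X → Prop) (Y : Set X) : Y → Y → Prop :=
  fun a b => E (a : X) (b : X)

/-- `E` is smooth: there is a Borel map `f` to a Polish space with `x E y ↔ f x = f y`. -/
def IsSmooth {X : Type u} [MeasurableSpace X] (E : X → X → Prop) : Prop :=
  ∃ (Z : Type) (_ : TopologicalSpace Z) (_ : PolishSpace Z) (_ : MeasurableSpace Z)
    (_ : BorelSpace Z) (f : X → Z), Measurable f ∧ ∀ x y : X, E x y ↔ f x = f y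

/-- `E` admits a compact action realization: there are a countable group `Γ`, a continuous action
of `Γ` on a compact Polish space `K` and a Borel bijection `φ` onto `K` such that `x E y` iff
`φ x` and `φ y` lie in the same `Γ`-orbit. -/
def HasCompactActionRealization {X : Type u} [MeasurableSpace X] (E : X → X → Prop) : Prop :=
  ∃ (Γ : Type) (_ : Group Γ) (_ : Countable Γ) (K : Type) (_ : TopologicalSpace K)
    (_ : CompactSpace K) (_ : PolishSpace K) (_ : MeasurableSpace K) (_ : BorelSpace K)
    (_ : MulAction Γ K) (_ : ContinuousConstSMul Γ K) (φ : X → K),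
    Function.Bijective φ ∧ Measurable φ ∧
      ∀ x y : X, E x y ↔ ∃ g : Γ, g • φ x = φ y

end Pool.Agent.Work.MP_97bde0_lc_helper49
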