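import Pool.Agent.Work.MP_97bde0_lc.Final
import Pool.Agent.Work.MP_97bde0_lc_helper49.Defs

set_option autoImplicit false

open Set MeasureTheory Topology
open scoped ENNReal

universe u

namespace Pool.Agent.Work.MP_97bde0_lc_helper49

/-- smoothness of the restriction from a real-valued map as in the frozen statement -/
theorem smooth_of_real {X : Type} [MeasurableSpace X] {E : X → X → Prop} {Y : Set X}
    (h : ∃ f : X → ℝ, Measurable f ∧ ∀ x ∈ Y, ∀ y ∈ Y, (E x y ↔ f x = f y)) :
    IsSmooth (Restrict E Y) := by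
  obtain ⟨f, hf, hE⟩ := h
  exact ⟨ℝ, inferInstance, inferInstance, inferInstance, inferInstance, fun a => f a,
    hf.comp measurable_subtype_coe, fun a b => hE a a.2 b b.2⟩

/-- The mixture of a sequence of probability measures. -/
noncomputable def mix {X : Type} [MeasurableSpace X] (μ : ℕ → Measure X) : Measure X :=
  Measure.sum fun n => (2⁻¹ : ℝ≥0∞) ^ (n + 1) • μ n

theorem mix_apply {X : Type} [MeasurableSpace X] (μ : ℕ → Measure X) {S : Set X}
    (hS : MeasurableSet S) : mix μ S = ∑' n, (2⁻¹ : ℝ≥0∞) ^ (n + 1) * μ n S := by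
  unfold mix
  rw [Measure.sum_apply _ hS]
  simp

theorem mix_prob {X : Type} [MeasurableSpace X] (μ : ℕ → Measure X)
    [∀ n, IsProbabilityMeasure (μ n)] : IsProbabilityMeasure (mix μ) := by
  refine ⟨?_⟩
  rw [mix_apply μ MeasurableSet.univ]
  simp only [measure_univ, mul_one]
  rw [ENNReal.tsum_geometric_add_one]
  rw [ENNReal.one_sub_inv_two, inv_inv]
  exact ENNReal.inv_mul_cancel (by norm_num) (by norm_num)

theorem mix_zero {X : Type} [MeasurableSpace X] (μ : ℕ → Measure X) {S : Set X}
    (hS : MeasurableSet S) (h : mix μ S = 0) (n : ℕ) : μ n S = 0 := by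
  rw [mix_apply μ hS, ENNReal.tsum_eq_zero] at h
  have := mul_eq_zero.1 (h n)
  rcases this with h1 | h1
  · exact absurd h1 (by simp)
  · exact h1

/-- The theorem for a sequence of measures, for spaces in the lowest universe. -/
theorem main_seq {X : Type} [MeasurableSpace X] [StandardBorelSpace X] {E : X → X → Prop}
    (μ : ℕ → Measure X) [∀ n, IsProbabilityMeasure (μ n)] (hE : IsCBER E) (hap : IsAperiodic E)
    (hns : ∀ Z : Set X, MeasurableSet Z → IsInvariant E Z → (∀ n, μ n Z = 1) →
      ¬ IsSmooth (Restrict E Z)) :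
    ∃ Y : Set X, MeasurableSet Y ∧ IsInvariant E Y ∧ (∀ n, μ n Y = 1) ∧
      HasCompactActionRealization (Restrict E Y) := by
  haveI := mix_prob μ
  have hone : ∀ Y : Set X, MeasurableSet Y → mix μ Y = 1 → ∀ n, μ n Y = 1 := by
    intro Y hY h1 n
    rw [← prob_compl_eq_zero_iff hY] at h1 ⊢
    exact mix_zero μ hY.compl h1 n
  obtain ⟨Y, hY, hYi, hY1, G, g1, g2, Z, t1, t2, t3, t4, t5, t6, t7, f, hf⟩ :=
    Pool.Agent.Work.MP_97bde0_lc.main (mix μ) hE.equivalence hE.borel hE.countable hap (by
      intro Y hY hYi hY1 hs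
      exact hns Y hY hYi (hone Y hY hY1) (smooth_of_real hs))
  refine ⟨Y, hY, hYi, hone Y hY hY1, G, g1, g2, Z, t1, t2, ?_, t4, t5, t6, t7, f, f.bijective,
    f.measurable, hf⟩
  letI := TopologicalSpace.metrizableSpaceMetric Z
  infer_instance

/-- The theorem for a sequence of measures, in every universe. -/
theorem main_univ {X : Type u} [MeasurableSpace X] [StandardBorelSpace X] {E : X → X → Prop}
    (μ : ℕ → Measure X) [∀ n, IsProbabilityMeasure (μ n)] (hE : IsCBER E) (hap : IsAperiodic E)
    (hns : ∀ Z : Set X, MeasurableSet Z → IsInvariant E Z → (∀ n, μ n Z = 1) →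
      ¬ IsSmooth (Restrict E Z)) :
    ∃ Y : Set X, MeasurableSet Y ∧ IsInvariant E Y ∧ (∀ n, μ n Y = 1) ∧
      HasCompactActionRealization (Restrict E Y) := by
  obtain ⟨r, hr⟩ := exists_measurableEmbedding_real X
  let X' : Type := range r
  haveI : StandardBorelSpace X' := hr.measurableSet_range.standardBorel
  let e : X ≃ᵐ X' := hr.equivRange
  let E' : X' → X' → Prop := fun a b => E (e.symm a) (e.symm b)
  let μ' : ℕ → Measure X' := fun n => (μ n).map e
  haveI : ∀ n, IsProbabilityMeasure (μ' n) := fun n =>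
    Measure.isProbabilityMeasure_map e.measurable.aemeasurable
  have hμ' : ∀ n (S : Set X'), μ' n S = μ n (e ⁻¹' S) := fun n S => e.map_apply S
  have hE' : IsCBER E' := by
    refine ⟨⟨fun a => hE.equivalence.refl _, fun h => hE.equivalence.symm h,
      fun h h' => hE.equivalence.trans h h'⟩, ?_, ?_⟩
    · have : Measurable fun p : X' × X' => (e.symm p.1, e.symm p.2) :=
        (e.symm.measurable.comp measurable_fst).prodMk (e.symm.measurable.comp measurable_snd)
      exact this hE.borel
    · intro a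
      have : {b : X' | E' a b} = e.symm ⁻¹' {y | E (e.symm a) y} := rfl
      rw [this]
      exact (hE.countable _).preimage e.symm.injective
  have hap' : IsAperiodic E' := by
    intro a
    have h1 := hap (e.symm a)
    have : e '' {y | E (e.symm a) y} ⊆ {b : X' | E' a b} := by
      rintro _ ⟨y, hy, rfl⟩
      show E (e.symm a) (e.symm (e y))
      rw [e.symm_apply_apply]
      exact hy
    exact (h1.image e.injective.injOn).mono this
  obtain ⟨Y, hY, hYi, hY1, G, g1, g2, K, t1, t2, t3, t4, t5, t6, t7, φ, hφb, hφm, hφ⟩ :=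
    main_seq μ' hE' hap' (by
      intro Z hZ hZi hZ1 hs
      refine hns (e ⁻¹' Z) (e.measurable hZ) ?_ (fun n => by rw [← hμ' n]; exact hZ1 n) ?_
      · intro x y hxy hx
        refine hZi (e x) (e y) ?_ hx
        show E (e.symm (e x)) (e.symm (e y))
        rw [e.symm_apply_apply, e.symm_apply_apply]
        exact hxy
      · obtain ⟨W, w1, w2, w3, w4, f, hf, hfE⟩ := hs
        refine ⟨W, w1, w2, w3, w4, fun x => f ⟨e x, x.2⟩, ?_, ?_⟩
        · refine hf.comp ?_
          exact (e.measurable.comp measurable_subtype_coe).subtype_mk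
        · intro x y
          have := hfE ⟨e x, x.2⟩ ⟨e y, y.2⟩
          rw [← this]
          show E x y ↔ E (e.symm (e x)) (e.symm (e y))
          rw [e.symm_apply_apply, e.symm_apply_apply])
  refine ⟨e ⁻¹' Y, e.measurable hY, ?_, fun n => by rw [← hμ' n]; exact hY1 n, G, g1, g2, K, t1,
    t2, t3, t4, t5, t6, t7, fun x => φ ⟨e x, x.2⟩, ?_, ?_, ?_⟩
  · intro x y hxy hx
    refine hYi (e x) (e y) ?_ hx
    show E (e.symm (e x)) (e.symm (e y))
    rw [e.symm_apply_apply, e.symm_apply_apply]
    exact hxy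
  · constructor
    · intro x y hxy
      have h1 := hφb.1 hxy
      have h2 : e x = e y := congrArg Subtype.val h1
      exact Subtype.ext (e.injective h2)
    · intro k
      obtain ⟨y, rfl⟩ := hφb.2 k
      refine ⟨⟨e.symm y, ?_⟩, ?_⟩
      · show e (e.symm (y : X')) ∈ Y
        rw [e.apply_symm_apply]
        exact y.2
      · have h1 : (⟨e (e.symm (y : X')), by rw [e.apply_symm_apply]; exact y.2⟩ : Y) = y :=
          Subtype.ext (e.apply_symm_apply (y : X'))
        exact congrArg φ h1
  · refine hφm.comp ?_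
    exact (e.measurable.comp measurable_subtype_coe).subtype_mk
  · intro x y
    have := hφ ⟨e x, x.2⟩ ⟨e y, y.2⟩
    rw [← this]
    show E x y ↔ E (e.symm (e x)) (e.symm (e y))
    rw [e.symm_apply_apply, e.symm_apply_apply]

end Pool.Agent.Work.MP_97bde0_lc_helper49
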